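import Mathlib

set_option autoImplicit false

namespace Pool.Agent.Results.MP_e73184_al.TraceCex

open Matrix

def Admissible {n : ℕ} (k : ℕ) (A : Matrix (Fin n) (Fin n) ℝ) : Prop :=
  (∀ i j, 0 ≤ A i j) ∧ (∀ j, ∑ i, A i j ≤ 1) ∧ (∀ i, ∑ j, A i j ≤ 1) ∧
    (∀ i j : Fin n, i.val + 2 ≤ j.val → A i j = 0) ∧
    (∀ i j : Fin n, j.val + k < i.val → A i j = 0) ∧
    ∃ c : ℕ → ℝ, (∀ l, 0 ≤ c l) ∧ ∀ i j : Fin n, j ≤ i → i.val - j.val ≤ k → A i j = c (i.val - j.val)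

theorem result : ∃ (n k : ℕ) (A : Matrix (Fin n) (Fin n) ℝ), 1 ≤ n ∧ Admissible k A ∧
    (∀ l, 1 ≤ l → l ≤ k + 1 → (A ^ l).trace ≤ 1) ∧ ∃ m, k + 1 < m ∧ 1 < (A ^ m).trace := by
  refine ⟨3, 2, !![1 / 3, 2 / 3, 0; 0, 1 / 3, 2 / 3; 2 / 3, 0, 1 / 3], by norm_num,
    ⟨?_, ?_, ?_, ?_, ?_, fun l => if l = 0 then 1 / 3 else if l = 1 then 0 else 2 / 3, ?_, ?_⟩,
    ?_, 4, by norm_num, ?_⟩
  · intro i j; fin_cases i <;> fin_cases j <;> norm_num
  · intro j; fin_cases j <;> simp [Fin.sum_univ_three] <;> norm_num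
  · intro j; fin_cases j <;> simp [Fin.sum_univ_three] <;> norm_num
  · intro i j; fin_cases i <;> fin_cases j <;> simp
  · intro i j; fin_cases i <;> fin_cases j <;> simp
  · intro l; dsimp only; split_ifs <;> norm_num
  · intro i j; fin_cases i <;> fin_cases j <;> simp
  · intro l h1 h2
    interval_cases l <;> simp [pow_succ, trace_fin_three] <;> norm_num
  · simp [pow_succ, trace_fin_three]; norm_num

end Pool.Agent.Results.MP_e73184_al.TraceCex
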